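import Pool.Agent.N879.GD.Stm

set_option autoImplicit false

/-!
Project GD (MP_112ba8_nt): job FIN, the final assembly.
-/

namespace Pool.Agent.J4H13.GD

open Complex Filter Topology MeasureTheory Set
open Pool.Agent.Y969.GP (ff V ht lam PS co PX)
open Pool.Agent.N879.GD

theorem t_FIN : S_DIL1 → S_DILK → S_COV → S_INT → S_MB → S_LIP → S_DET → S_FIN := by
  rintro ⟨δ1, hδ1, hδ1', hD⟩ hK hCOV hINT hMB hLIP hDET
  obtain ⟨δ2, hδ2⟩ : ∃ δ2 : ℝ, δ2 = δ1 / 2 := ⟨_, rfl⟩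
  have h2pos : 0 < δ2 := by rw [hδ2]; positivity
  have h2le : δ2 ≤ 1 / 2 := by rw [hδ2]; linarith
  have hPK : P_DILK δ2 := hK δ1 δ2 h2pos (by rw [hδ2]; linarith) hδ1' hD
  refine ⟨δ2 / 8, by positivity, by linarith, fun k hk => ?_⟩
  obtain ⟨K, hK1, hLIPk⟩ := hLIP k
  have hK0 : 0 < K := lt_of_lt_of_le one_pos hK1
  have hk1 : (1 : ℝ) ≤ k := by exact_mod_cast hk
  have hfrac : δ2 / 2 / (2 * K) ≤ 1 / 8 := by
    rw [div_le_iff₀ (by positivity)]
    nlinarith
  refine ⟨k - δ2 / 2 / (2 * K), by linarith, by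
    have : 0 < δ2 / 2 / (2 * K) := by positivity
    linarith, fun F hF => ?_⟩
  refine ⟨⋃ N : ℕ, {x | ∃ᶠ n in atTop, x ∈ Bad k F ((N : ℝ) + 1) 1 (δ2 / 2) (δ2 / 4) n}, ?_, ?_⟩
  · rw [dimH_iUnion]
    refine iSup_le fun N => ?_
    have hA : (1 : ℝ) ≤ (N : ℝ) + 1 := by
      have := Nat.cast_nonneg (α := ℝ) N
      linarith
    obtain ⟨C, hC, hvol⟩ := hMB δ2 (δ2 / 2) (δ2 / 4) (δ2 / 2) h2pos (by positivity) (by linarith)
      (by positivity) (by linarith) hPK (by linarith) k F hF (2 * ((N : ℝ) + 1)) (1 / 2)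
      (by linarith) (by norm_num)
    refine hCOV k (k - δ2 / 2 / (2 * K)) _ (fun n => Bad k F (2 * ((N : ℝ) + 1)) (1 / 2) (δ2 / 2)
      (δ2 / 4) n) (fun n => ((2 : ℝ) ^ n) ^ (-K)) (fun n => C * ((2 : ℝ) ^ n) ^ (-(δ2 / 2))) hk
      (by linarith) (fun n => by positivity) ?_ (fun n => by positivity) ?_ hvol ?_
    · have h1 : Tendsto (fun n : ℕ => (2 : ℝ) ^ n) atTop atTop :=
        tendsto_pow_atTop_atTop_of_one_lt (by norm_num)
      exact (tendsto_rpow_neg_atTop hK0).comp h1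
    · exact hLIPk F ((N : ℝ) + 1) (δ2 / 2) (δ2 / 4) hF hA (by positivity) (by linarith)
        (by positivity) (by linarith)
    · have h1 : ∀ n : ℕ, C * ((2 : ℝ) ^ n) ^ (-(δ2 / 2)) *
          (((2 : ℝ) ^ n) ^ (-K)) ^ ((k : ℝ) - δ2 / 2 / (2 * K) - k) =
          C * ((2 : ℝ) ^ (-(δ2 / 4))) ^ n := by
        intro n
        have h2 : (0 : ℝ) ≤ (2 : ℝ) ^ n := by positivity
        rw [← Real.rpow_mul h2, mul_assoc, ← Real.rpow_add (by positivity), ← Real.rpow_natCast,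
          ← Real.rpow_natCast, ← Real.rpow_mul (by norm_num), ← Real.rpow_mul (by norm_num)]
        congr 2
        field_simp
        ring
      simp_rw [h1]
      refine Summable.mul_left C (summable_geometric_of_lt_one (by positivity) ?_)
      exact Real.rpow_lt_one_of_one_lt_of_neg (by norm_num) (by linarith)
  · intro l hl hpos
    have hex : ∃ N : ℕ, ∀ j, ((N : ℝ) + 1)⁻¹ ≤ l j ∧ l j ≤ (N : ℝ) + 1 := by
      obtain ⟨N, hN⟩ := exists_nat_ge (∑ j, (l j + (l j)⁻¹))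
      refine ⟨N, fun j => ?_⟩
      have h1 : l j + (l j)⁻¹ ≤ N := le_trans (Finset.single_le_sum
        (f := fun j => l j + (l j)⁻¹) (fun i _ => by have := hpos i; positivity)
        (Finset.mem_univ j)) hN
      have h2 := hpos j
      have h3 : 0 < (l j)⁻¹ := inv_pos.2 h2
      refine ⟨?_, by linarith⟩
      rw [inv_le_comm₀ (by positivity) h2]
      linarith
    obtain ⟨N, hN⟩ := hex
    have hA : (1 : ℝ) ≤ (N : ℝ) + 1 := by
      have := Nat.cast_nonneg (α := ℝ) N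
      linarith
    have hbad : ∀ᶠ n in atTop, l ∉ Bad k F ((N : ℝ) + 1) 1 (δ2 / 2) (δ2 / 4) n := by
      rw [← not_frequently]
      intro h
      exact hl (mem_iUnion.2 ⟨N, h⟩)
    obtain ⟨C, hC⟩ := hDET k F ((N : ℝ) + 1) (δ2 / 2) (δ2 / 4) (δ2 / 8) hF hA (by positivity)
      (by linarith) (by positivity) (by linarith) (by positivity) (by linarith) (by linarith) l hN
      hbad
    refine ⟨C, fun T hT => ?_⟩
    obtain ⟨i1, i2⟩ := hINT k F hF l hpos T
    have hT0 : (0 : ℝ) ≤ T := by linarith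
    rw [intervalIntegral.integral_of_le hT0, intervalIntegral.integral_of_le hT0,
      ← integral_sub i1 i2]
    refine le_trans (le_of_eq ?_) (hC T hT)
    congr 2
    funext t
    unfold dif
    push_cast
    ring

end Pool.Agent.J4H13.GD
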