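import Pool.Agent.J4H13.GD.Dia

set_option autoImplicit false

/-!
Project GD (MP_112ba8_nt): job LEM, the Mellin transform of `ff - D0`.
-/

namespace Pool.Agent.J4H13.GD

open Complex Filter Topology MeasureTheory Set
open Pool.Agent.Y969.GP (ff V ht lam PS co PX S_AFE)
open Pool.Agent.N879.GD

theorem W_mul {a T u p : ℝ} (hT : 0 < T) (hu : 0 < u) : W a T u * (u / T) ^ p = W (a + p) T u := by
  unfold W
  rw [Real.rpow_add (by positivity)]
  ring

theorem W_nonneg {a T u : ℝ} (hT : 0 < T) (hu : 0 < u) : 0 ≤ W a T u := by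
  unfold W
  positivity

theorem W_int {b T : ℝ} (hb : 0 < b) (hT : 0 < T) :
    IntegrableOn (W b T) (Ioi 0) ∧ ∫ u in Ioi (0 : ℝ), W b T u = Real.Gamma b := by
  have h := Real.integral_rpow_mul_exp_neg_mul_Ioi hb (inv_pos.2 hT)
  have h2 : ∫ u in Ioi (0 : ℝ), W b T u = Real.Gamma b := by
    have h3 : ∫ u in Ioi (0 : ℝ), W b T u =
        ∫ u in Ioi (0 : ℝ), T⁻¹ ^ b * (u ^ (b - 1) * Real.exp (-(T⁻¹ * u))) := by
      refine setIntegral_congr_fun measurableSet_Ioi fun u hu => ?_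
      have hu0 : (0 : ℝ) < u := hu
      simp only [W]
      rw [div_eq_mul_inv u T, Real.mul_rpow hu0.le (by positivity), Real.rpow_sub_one hu0.ne',
        mul_comm u T⁻¹]
      ring
    rw [h3, integral_const_mul, h, ← mul_assoc, ← Real.mul_rpow (by positivity) (by positivity)]
    rw [one_div, inv_inv, inv_mul_cancel₀ hT.ne', Real.one_rpow, one_mul]
  refine ⟨?_, h2⟩
  by_contra hcon
  have h4 : ∫ u in Ioi (0 : ℝ), W b T u = 0 := integral_undef hcon
  rw [h2] at h4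
  exact (Real.Gamma_pos_of_pos hb).ne' h4

theorem V_meas : Measurable V := by
  have h1 : Antitone fun a : ℝ => ∫ v in Ioi a, Real.exp (-v ^ 2 / 4) := by
    intro a b hab
    apply setIntegral_mono_set ga_int.integrableOn (Eventually.of_forall fun v => (Real.exp_pos _).le)
    exact (Ioi_subset_Ioi hab).eventuallyLE
  exact (h1.measurable.comp Real.measurable_log).const_mul _

theorem V_bd (x : ℝ) : 0 ≤ V x ∧ V x ≤ 1 := by
  have hs : 0 < √Real.pi := Real.sqrt_pos.2 Real.pi_pos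
  have h0 : 0 ≤ ∫ v in Ioi (Real.log x), Real.exp (-v ^ 2 / 4) :=
    integral_nonneg fun v => (Real.exp_pos _).le
  have h1 : ∫ v in Ioi (Real.log x), Real.exp (-v ^ 2 / 4) ≤ 2 * √Real.pi := by
    rw [← ga_total]
    exact setIntegral_le_integral ga_int (Eventually.of_forall fun v => (Real.exp_pos _).le)
  unfold V
  refine ⟨by positivity, ?_⟩
  rw [inv_mul_le_iff₀ (by positivity), mul_one]
  exact h1

/-- the off-diagonal part -/
noncomputable def Off (X : ℕ) (u : ℝ) : ℂ :=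
  ∑ p ∈ (PS X).filter (fun p => p.1 ≠ p.2), (co p u : ℂ) * cexp (I * ((u * lam p : ℝ) : ℂ))

theorem Off_meas (X : ℕ) : Measurable (Off X) := by
  unfold Off
  refine Finset.measurable_sum _ fun p _ => ?_
  refine Measurable.mul ?_ (by fun_prop)
  apply Complex.measurable_ofReal.comp
  unfold co
  exact (V_meas.comp (measurable_const.div measurable_id)).const_mul _

theorem Off_bd (X : ℕ) (u : ℝ) : ‖Off X u‖ ≤ 2 * (X : ℝ) ^ 2 := by
  unfold Off
  have h1 : ∀ p ∈ (PS X).filter (fun p => p.1 ≠ p.2),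
      ‖(co p u : ℂ) * cexp (I * ((u * lam p : ℝ) : ℂ))‖ ≤ 2 := by
    intro p hp
    simp only [PS, Finset.mem_filter, Finset.mem_product, Finset.mem_Icc] at hp
    obtain ⟨⟨⟨⟨h1, -⟩, h2, -⟩, -⟩, -⟩ := hp
    have hp1 : (1 : ℝ) ≤ p.1 := by exact_mod_cast h1
    have hp2 : (1 : ℝ) ≤ p.2 := by exact_mod_cast h2
    have hht : 1 ≤ √(ht p) := by
      rw [Real.one_le_sqrt]
      unfold ht
      nlinarith
    rw [norm_mul, mul_comm I, Complex.norm_exp_ofReal_mul_I, mul_one, Complex.norm_real,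
      Real.norm_eq_abs]
    obtain ⟨v0, v1⟩ := V_bd (2 * Real.pi * ht p / u)
    have hi : (√(ht p))⁻¹ ≤ 1 := inv_le_one_of_one_le₀ hht
    have hi0 : 0 ≤ (√(ht p))⁻¹ := by positivity
    unfold co
    rw [abs_of_nonneg (by positivity)]
    nlinarith
  refine (norm_sum_le_of_le _ h1).trans ?_
  rw [Finset.sum_const, nsmul_eq_mul]
  have h2 : ((PS X).filter (fun p => p.1 ≠ p.2)).card ≤ X ^ 2 := by
    refine (Finset.card_filter_le _ _).trans ?_
    unfold PS
    refine (Finset.card_filter_le _ _).trans ?_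
    rw [Finset.card_product, Nat.card_Icc, Nat.add_sub_cancel, sq]
  have h3 : (((PS X).filter (fun p => p.1 ≠ p.2)).card : ℝ) ≤ (X : ℝ) ^ 2 := by exact_mod_cast h2
  linarith

theorem PX_split (X : ℕ) (u : ℝ) :
    PX X u = ((∑ p ∈ (PS X).filter (fun p => p.1 = p.2), co p u : ℝ) : ℂ) + Off X u := by
  unfold PX Off
  rw [← Finset.sum_filter_add_sum_filter_not (PS X) (fun p => p.1 = p.2)]
  congr 1
  push_cast
  refine Finset.sum_congr rfl fun p hp => ?_
  have h : lam p = 0 := by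
    unfold lam
    rw [(Finset.mem_filter.1 hp).2, sub_self]
  rw [h]
  simp

theorem D0_bd {u : ℝ} (hu : 0 < u) : |D0 u| ≤ |Real.log u| + 4 := by
  unfold D0
  have hpi := Real.pi_pos
  have h1 : Real.log (u / (2 * Real.pi)) = Real.log u - Real.log (2 * Real.pi) :=
    Real.log_div hu.ne' (by positivity)
  have h2 : 0 ≤ Real.log (2 * Real.pi) := Real.log_nonneg (by linarith [Real.pi_gt_three])
  have h3 : Real.log (2 * Real.pi) ≤ 2 := by
    rw [Real.log_le_iff_le_exp (by positivity)]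
    have h4 : (2.7182818283 : ℝ) < Real.exp 1 := Real.exp_one_gt_d9
    have h5 : Real.exp 2 = Real.exp 1 * Real.exp 1 := by
      rw [← Real.exp_add]
      norm_num
    have h6 : Real.pi < 3.15 := Real.pi_lt_d2
    rw [h5]
    nlinarith
  have h5 := euler_le
  have h6 := euler_nonneg
  rw [h1, abs_le]
  have h7 := neg_abs_le (Real.log u)
  have h8 := le_abs_self (Real.log u)
  constructor <;> linarith

theorem D0_meas : Measurable D0 := by
  unfold D0
  fun_prop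

theorem key {ε CA CD CF : ℝ} {N : ℕ} (hε : 0 < ε) (hε4 : ε ≤ 1 / 4) (hCA : 0 < CA) (hCD : 0 < CD)
    (hCF : 0 < CF) (hcr : ∀ u : ℝ, 0 ≤ u → ff u ≤ CF * (1 + u) ^ N)
    (hA : ∀ (u : ℝ) (X : ℕ), 1 ≤ u → u ^ (1 + ε / 4) ≤ X →
      ‖(ff u : ℂ) - PX X u‖ ≤ CA * u ^ (-(1 / 2) + ε / 4))
    (hD : ∀ (u : ℝ) (X : ℕ), 1 ≤ u → u ^ (1 + ε / 4) ≤ X →
      |∑ p ∈ (PS X).filter (fun p => p.1 = p.2), co p u - D0 u| ≤ CD * u ^ (-(1 / 2 : ℝ)))
    {T : ℝ} (hT : 1 ≤ T) {X : ℕ} (hX1 : T ^ (1 + ε) ≤ X) (hX2 : X ≤ 2 * T ^ (1 + ε)) {u : ℝ}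
    (hu : 0 < u) :
    ‖(ff u : ℂ) - D0 u - Off X u‖ ≤ (CF * 2 ^ N + 13 + CA + CD) * (T ^ (-(1 / 4 : ℝ)) *
      ((u / T) ^ (-3 : ℝ) + (u / T) ^ (-(1 / 4 : ℝ)) +
        (u / T) ^ ((N : ℝ) + 3 + (N + 4) * 4 / ε))) := by
  have hT0 : 0 < T := by linarith
  have hff : 0 ≤ ff u := by unfold ff; positivity
  have hq : 0 < u / T := by positivity
  have t1 : 0 < T ^ (-(1 / 4 : ℝ)) := by positivity
  have p1 : 0 < (u / T) ^ (-3 : ℝ) := by positivity
  have p2 : 0 < (u / T) ^ (-(1 / 4 : ℝ)) := by positivity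
  have p3 : 0 < (u / T) ^ ((N : ℝ) + 3 + (N + 4) * 4 / ε) := by positivity
  have hpw : (0 : ℝ) < 2 ^ N := by positivity
  have hXsq : 2 * (X : ℝ) ^ 2 ≤ 8 * T ^ (5 / 2 : ℝ) := by
    have h1 : (X : ℝ) ^ 2 ≤ (2 * T ^ (1 + ε)) ^ 2 := by gcongr
    have h2 : (T ^ (1 + ε)) ^ 2 ≤ T ^ (5 / 2 : ℝ) := by
      rw [← Real.rpow_natCast, ← Real.rpow_mul hT0.le]
      apply Real.rpow_le_rpow_of_exponent_le hT
      push_cast
      linarith
    nlinarith
  have crude : ‖(ff u : ℂ) - D0 u - Off X u‖ ≤ CF * (1 + u) ^ N + (|Real.log u| + 4) +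
      8 * T ^ (5 / 2 : ℝ) := by
    refine (norm_sub_le _ _).trans ?_
    refine (add_le_add (norm_sub_le _ _) (Off_bd X u)).trans ?_
    rw [Complex.norm_real, Complex.norm_real, Real.norm_of_nonneg hff, Real.norm_eq_abs]
    have h1 := hcr u hu.le
    have h2 := D0_bd hu
    linarith
  have K0 : 0 < CF * 2 ^ N + 13 := by positivity
  rcases le_or_gt u 1 with hu1 | hu1
  · -- region A
    have hA1 : T ^ (-(1 / 4 : ℝ)) * (u / T) ^ (-3 : ℝ) = T ^ (11 / 4 : ℝ) * u ^ (-3 : ℝ) := by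
      have h1 : (u / T) ^ (-3 : ℝ) = u ^ (-3 : ℝ) * T ^ (3 : ℝ) := by
        rw [Real.div_rpow hu.le hT0.le, Real.rpow_neg hT0.le, div_inv_eq_mul]
      have h2 : T ^ (-(1 / 4 : ℝ)) * T ^ (3 : ℝ) = T ^ (11 / 4 : ℝ) := by
        rw [← Real.rpow_add hT0]
        norm_num
      rw [h1, ← h2]
      ring
    have hs1 : 1 ≤ u⁻¹ := (one_le_inv₀ hu).2 hu1
    have hs : u⁻¹ ≤ u ^ (-3 : ℝ) := by
      rw [← Real.rpow_neg_one]
      exact Real.rpow_le_rpow_of_exponent_ge hu hu1 (by norm_num)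
    have ht : T ^ (5 / 2 : ℝ) ≤ T ^ (11 / 4 : ℝ) :=
      Real.rpow_le_rpow_of_exponent_le hT (by norm_num)
    have ht1 : 1 ≤ T ^ (5 / 2 : ℝ) := Real.one_le_rpow hT (by norm_num)
    obtain ⟨s, hsd⟩ : ∃ s : ℝ, s = u ^ (-3 : ℝ) := ⟨_, rfl⟩
    obtain ⟨t, htd⟩ : ∃ t : ℝ, t = T ^ (11 / 4 : ℝ) := ⟨_, rfl⟩
    rw [← hsd] at hs hA1
    rw [← htd] at ht hA1
    have hlog : |Real.log u| ≤ u⁻¹ := by
      rw [abs_of_nonpos (Real.log_nonpos hu.le hu1), ← Real.log_inv]
      have := Real.log_le_sub_one_of_pos (inv_pos.2 hu)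
      linarith
    have hpow : (1 + u) ^ N ≤ 2 ^ N := by
      apply pow_le_pow_left₀ (by linarith)
      linarith
    have hs' : 1 ≤ s := hs1.trans hs
    have ht' : 1 ≤ t := ht1.trans ht
    have hst1 : s ≤ t * s := by nlinarith
    have hst2 : t ≤ t * s := by nlinarith
    have hst3 : 1 ≤ t * s := hs'.trans hst1
    calc _ ≤ CF * 2 ^ N + (s + 4) + 8 * t := by
          refine crude.trans ?_
          have := mul_le_mul_of_nonneg_left hpow hCF.le
          linarith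
      _ ≤ (CF * 2 ^ N + 13) * (t * s) := by
          have : CF * 2 ^ N ≤ CF * 2 ^ N * (t * s) := by
            have h := mul_le_mul_of_nonneg_left hst3 (show 0 ≤ CF * 2 ^ N by positivity)
            linarith
          nlinarith
      _ ≤ _ := by
          rw [← hA1]
          apply mul_le_mul (by linarith) _ (by positivity) (by positivity)
          apply mul_le_mul_of_nonneg_left _ t1.le
          linarith
  rcases le_or_gt u (T ^ (1 + ε / 4)) with hu2 | hu2
  · -- region B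
    have hXu : u ^ (1 + ε / 4) ≤ X := by
      refine le_trans ?_ hX1
      calc u ^ (1 + ε / 4) ≤ (T ^ (1 + ε / 4)) ^ (1 + ε / 4) :=
            Real.rpow_le_rpow hu.le hu2 (by positivity)
        _ = T ^ ((1 + ε / 4) * (1 + ε / 4)) := (Real.rpow_mul hT0.le _ _).symm
        _ ≤ T ^ (1 + ε) := by
            apply Real.rpow_le_rpow_of_exponent_le hT
            nlinarith
    have h1 := hA u X hu1.le hXu
    have h2 := hD u X hu1.le hXu
    have h3 : u ^ (-(1 / 2) + ε / 4) ≤ u ^ (-(1 / 4 : ℝ)) :=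
      Real.rpow_le_rpow_of_exponent_le hu1.le (by linarith)
    have h4 : u ^ (-(1 / 2 : ℝ)) ≤ u ^ (-(1 / 4 : ℝ)) :=
      Real.rpow_le_rpow_of_exponent_le hu1.le (by norm_num)
    have h5 : (ff u : ℂ) - D0 u - Off X u = ((ff u : ℂ) - PX X u) +
        ((∑ p ∈ (PS X).filter (fun p => p.1 = p.2), co p u - D0 u : ℝ) : ℂ) := by
      rw [PX_split, ofReal_sub]
      ring
    have h6 : T ^ (-(1 / 4 : ℝ)) * (u / T) ^ (-(1 / 4 : ℝ)) = u ^ (-(1 / 4 : ℝ)) := by
      rw [← Real.mul_rpow hT0.le hq.le]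
      congr 1
      field_simp
    have h7 : 0 < u ^ (-(1 / 4 : ℝ)) := by positivity
    rw [h5]
    refine (norm_add_le _ _).trans ?_
    rw [Complex.norm_real, Real.norm_eq_abs]
    calc _ ≤ CA * u ^ (-(1 / 4 : ℝ)) + CD * u ^ (-(1 / 4 : ℝ)) := by
          have e1 := mul_le_mul_of_nonneg_left h3 hCA.le
          have e2 := mul_le_mul_of_nonneg_left h4 hCD.le
          linarith
      _ = (CA + CD) * u ^ (-(1 / 4 : ℝ)) := by ring
      _ ≤ _ := by
          rw [← h6]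
          apply mul_le_mul (by linarith) _ (by positivity) (by positivity)
          apply mul_le_mul_of_nonneg_left _ t1.le
          linarith
  · -- region C
    have huT : T ≤ u := by
      refine le_trans ?_ hu2.le
      calc T = T ^ (1 : ℝ) := (Real.rpow_one T).symm
        _ ≤ T ^ (1 + ε / 4) := Real.rpow_le_rpow_of_exponent_le hT (by linarith)
    obtain ⟨M, hM⟩ : ∃ M : ℝ, M = u ^ ((N : ℝ) + 3) := ⟨_, rfl⟩
    have hM1 : M = u ^ (N + 3) := by
      rw [hM, ← Real.rpow_natCast]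
      push_cast
      rfl
    have hu3 : 1 ≤ u ^ 3 := one_le_pow₀ hu1.le
    have huN : 1 ≤ u ^ N := one_le_pow₀ hu1.le
    have b1 : (1 + u) ^ N ≤ 2 ^ N * M := by
      have h1 : (1 + u) ^ N ≤ (2 * u) ^ N := pow_le_pow_left₀ (by linarith) (by linarith) N
      rw [mul_pow] at h1
      refine h1.trans ?_
      apply mul_le_mul_of_nonneg_left _ hpw.le
      rw [hM1]
      exact pow_le_pow_right₀ hu1.le (by omega)
    have b2 : |Real.log u| ≤ M := by
      rw [abs_of_nonneg (Real.log_nonneg hu1.le)]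
      have h1 := Real.log_le_sub_one_of_pos hu
      have h2 : u ^ 1 ≤ u ^ (N + 3) := pow_le_pow_right₀ hu1.le (by omega)
      rw [pow_one] at h2
      rw [hM1]
      linarith
    have b3 : T ^ (5 / 2 : ℝ) ≤ M := by
      calc T ^ (5 / 2 : ℝ) ≤ u ^ (5 / 2 : ℝ) := Real.rpow_le_rpow hT0.le huT (by norm_num)
        _ ≤ u ^ ((N : ℝ) + 3) := by
            apply Real.rpow_le_rpow_of_exponent_le hu1.le
            have := Nat.cast_nonneg (α := ℝ) N
            linarith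
        _ = M := hM.symm
    have b4 : 1 ≤ M := by
      rw [hM1]
      exact one_le_pow₀ hu1.le
    have b5 : M ≤ T ^ (-(1 / 4 : ℝ)) * (u / T) ^ ((N : ℝ) + 3 + (N + 4) * 4 / ε) := by
      have hqT : T ^ (ε / 4) ≤ u / T := by
        rw [le_div_iff₀ hT0]
        calc T ^ (ε / 4) * T = T ^ (ε / 4) * T ^ (1 : ℝ) := by rw [Real.rpow_one]
          _ = T ^ (ε / 4 + 1) := (Real.rpow_add hT0 _ _).symm
          _ = T ^ (1 + ε / 4) := by rw [add_comm]
          _ ≤ u := hu2.le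
      have hP : T ^ ((N : ℝ) + 4) ≤ (u / T) ^ (((N : ℝ) + 4) * 4 / ε) := by
        calc T ^ ((N : ℝ) + 4) = (T ^ (ε / 4)) ^ (((N : ℝ) + 4) * 4 / ε) := by
              rw [← Real.rpow_mul hT0.le]
              congr 1
              field_simp
          _ ≤ _ := Real.rpow_le_rpow (by positivity) hqT (by positivity)
      rw [Real.rpow_add hq, Real.div_rpow hu.le hT0.le, ← hM]
      have hTN : 0 < T ^ ((N : ℝ) + 3) := by positivity
      have h1 : M = M / T ^ ((N : ℝ) + 3) * T ^ ((N : ℝ) + 3) := by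
        field_simp
      have h2 : T ^ ((N : ℝ) + 3) ≤ T ^ (-(1 / 4 : ℝ)) * T ^ ((N : ℝ) + 4) := by
        rw [← Real.rpow_add hT0]
        apply Real.rpow_le_rpow_of_exponent_le hT
        linarith
      calc M = M / T ^ ((N : ℝ) + 3) * T ^ ((N : ℝ) + 3) := h1
        _ ≤ M / T ^ ((N : ℝ) + 3) * (T ^ (-(1 / 4 : ℝ)) * T ^ ((N : ℝ) + 4)) :=
            mul_le_mul_of_nonneg_left h2 (by positivity)
        _ ≤ M / T ^ ((N : ℝ) + 3) * (T ^ (-(1 / 4 : ℝ)) * (u / T) ^ (((N : ℝ) + 4) * 4 / ε)) := by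
            apply mul_le_mul_of_nonneg_left _ (by positivity)
            exact mul_le_mul_of_nonneg_left hP t1.le
        _ = _ := by ring
    calc _ ≤ CF * (2 ^ N * M) + (M + 4) + 8 * M := by
          refine crude.trans ?_
          have := mul_le_mul_of_nonneg_left b1 hCF.le
          linarith
      _ ≤ (CF * 2 ^ N + 13) * M := by nlinarith
      _ ≤ _ := by
          apply mul_le_mul (by linarith) _ (by positivity) (by positivity)
          refine b5.trans ?_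
          apply mul_le_mul_of_nonneg_left _ t1.le
          linarith

theorem t_LEM : S_OFI → S_DIA → S_CRU → S_AFE → S_LEM := by
  rintro ⟨a, ε, δ, ha, hε, hε4, hδ, hδ1, C1, T1, hC1, hT1, hO⟩ hDIA ⟨CF, N, hCF, hcont, hcr, -⟩ hAFE
  obtain ⟨CA, hCA, hA⟩ := hAFE (ε / 4) (by positivity)
  obtain ⟨CD, hCD, hD⟩ := hDIA (ε / 4) (by positivity)
  obtain ⟨K, hK⟩ : ∃ K : ℝ, K = CF * 2 ^ N + 13 + CA + CD := ⟨_, rfl⟩
  obtain ⟨P, hP⟩ : ∃ P : ℝ, P = (N : ℝ) + 3 + (N + 4) * 4 / ε := ⟨_, rfl⟩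
  have hK0 : 0 < K := by rw [hK]; positivity
  have hP0 : 0 < P := by rw [hP]; positivity
  have g1 : 0 < Real.Gamma (a - 3) := Real.Gamma_pos_of_pos (by linarith)
  have g2 : 0 < Real.Gamma (a - 1 / 4) := Real.Gamma_pos_of_pos (by linarith)
  have g3 : 0 < Real.Gamma (a + P) := Real.Gamma_pos_of_pos (by linarith)
  refine ⟨a, min δ (1 / 4), ha, lt_min hδ (by norm_num), (min_le_left _ _).trans hδ1,
    K * (Real.Gamma (a - 3) + Real.Gamma (a - 1 / 4) + Real.Gamma (a + P)) + C1, T1, by positivity,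
    hT1, fun T hT => ?_⟩
  have hT1' : 1 ≤ T := hT1.trans hT
  have hT0 : 0 < T := by linarith
  obtain ⟨X, hX⟩ : ∃ X : ℕ, X = ⌈T ^ (1 + ε)⌉₊ := ⟨_, rfl⟩
  have hTe : 1 ≤ T ^ (1 + ε) := Real.one_le_rpow hT1' (by linarith)
  have hX1 : T ^ (1 + ε) ≤ X := by rw [hX]; exact Nat.le_ceil _
  have hX2 : (X : ℝ) ≤ 2 * T ^ (1 + ε) := by
    rw [hX]
    have := (Nat.ceil_lt_add_one (show 0 ≤ T ^ (1 + ε) by positivity)).le
    linarith
  -- the bound for the error
  have hE : ∀ u ∈ Ioi (0 : ℝ), ‖(W a T u : ℂ) * ((ff u : ℂ) - D0 u - Off X u)‖ ≤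
      K * T ^ (-(1 / 4 : ℝ)) * (W (a - 3) T u + W (a - 1 / 4) T u + W (a + P) T u) := by
    intro u hu
    have hu0 : (0 : ℝ) < u := hu
    have h := key hε hε4 hCA hCD hCF hcr hA hD hT1' hX1 hX2 hu0
    rw [← hK, ← hP] at h
    rw [norm_mul, Complex.norm_real, Real.norm_of_nonneg (W_nonneg hT0 hu0)]
    refine (mul_le_mul_of_nonneg_left h (W_nonneg hT0 hu0)).trans (le_of_eq ?_)
    have e1 := W_mul (a := a) (p := -3) hT0 hu0
    have e2 := W_mul (a := a) (p := -(1 / 4)) hT0 hu0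
    have e3 := W_mul (a := a) (p := P) hT0 hu0
    rw [sub_eq_add_neg a 3, sub_eq_add_neg a (1 / 4), ← e1, ← e2, ← e3]
    ring
  obtain ⟨i1, v1⟩ := W_int (b := a - 3) (by linarith) hT0
  obtain ⟨i2, v2⟩ := W_int (b := a - 1 / 4) (by linarith) hT0
  obtain ⟨i3, v3⟩ := W_int (b := a + P) (by linarith) hT0
  obtain ⟨i4, v4⟩ := W_int (b := a) (by linarith) hT0
  have hGi : IntegrableOn (fun u => K * T ^ (-(1 / 4 : ℝ)) *
      (W (a - 3) T u + W (a - 1 / 4) T u + W (a + P) T u)) (Ioi 0) :=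
    ((i1.add i2).add i3).const_mul _
  have hGv : ∫ u in Ioi (0 : ℝ), K * T ^ (-(1 / 4 : ℝ)) *
      (W (a - 3) T u + W (a - 1 / 4) T u + W (a + P) T u) = K * T ^ (-(1 / 4 : ℝ)) *
        (Real.Gamma (a - 3) + Real.Gamma (a - 1 / 4) + Real.Gamma (a + P)) := by
    have i12 : IntegrableOn (fun u => W (a - 3) T u + W (a - 1 / 4) T u) (Ioi 0) := i1.add i2
    rw [integral_const_mul, integral_add i12 i3, integral_add i1 i2, v1, v2, v3]
  have hWm : Measurable (W a T) := by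
    unfold W
    fun_prop
  have hffm : Measurable ff := hcont.measurable
  have hEi : IntegrableOn (fun u => (W a T u : ℂ) * ((ff u : ℂ) - D0 u - Off X u)) (Ioi 0) := by
    refine Integrable.mono' hGi ?_ ((ae_restrict_iff' measurableSet_Ioi).2
      (Eventually.of_forall hE))
    apply Measurable.aestronglyMeasurable
    exact (Complex.measurable_ofReal.comp hWm).mul
      (((Complex.measurable_ofReal.comp hffm).sub (Complex.measurable_ofReal.comp D0_meas)).sub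
        (Off_meas X))
  have hOi : IntegrableOn (fun u => (W a T u : ℂ) * Off X u) (Ioi 0) := by
    refine Integrable.mono' (i4.const_mul (2 * (X : ℝ) ^ 2)) ?_
      ((ae_restrict_iff' measurableSet_Ioi).2 (Eventually.of_forall fun u hu => ?_))
    · exact ((Complex.measurable_ofReal.comp hWm).mul (Off_meas X)).aestronglyMeasurable
    · have hu0 : (0 : ℝ) < u := hu
      rw [norm_mul, Complex.norm_real, Real.norm_of_nonneg (W_nonneg hT0 hu0), mul_comm]
      exact mul_le_mul_of_nonneg_right (Off_bd X u) (W_nonneg hT0 hu0)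
  have hsumi : IntegrableOn (fun u => (W a T u : ℂ) * ((ff u : ℂ) - D0 u)) (Ioi 0) := by
    refine (hEi.add hOi).congr (Eventually.of_forall fun u => ?_)
    simp only [Pi.add_apply]
    ring
  constructor
  · have h := hsumi.re
    refine h.congr (Eventually.of_forall fun u => ?_)
    simp only [RCLike.re_to_complex]
    rw [← ofReal_sub, ← ofReal_mul, ofReal_re]
  intro τ
  have hphase : ∀ u : ℝ, ‖cexp (-(I * ((τ * Real.log u : ℝ) : ℂ)))‖ = 1 := by
    intro u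
    rw [show -(I * ((τ * Real.log u : ℝ) : ℂ)) = ((-(τ * Real.log u) : ℝ) : ℂ) * I by
      push_cast; ring, Complex.norm_exp_ofReal_mul_I]
  have hphm : Measurable fun u : ℝ => cexp (-(I * ((τ * Real.log u : ℝ) : ℂ))) := by
    fun_prop
  have mulph : ∀ f : ℝ → ℂ, IntegrableOn f (Ioi 0) →
      IntegrableOn (fun u => f u * cexp (-(I * ((τ * Real.log u : ℝ) : ℂ)))) (Ioi 0) := by
    intro f hf
    refine Integrable.mono hf (hf.aestronglyMeasurable.mul hphm.aestronglyMeasurable)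
      (Eventually.of_forall fun u => ?_)
    rw [norm_mul, hphase, mul_one]
  have hsplit : ∫ u in Ioi (0 : ℝ), ((W a T u * (ff u - D0 u) : ℝ) : ℂ) *
      cexp (-(I * ((τ * Real.log u : ℝ) : ℂ))) =
      (∫ u in Ioi (0 : ℝ), ((W a T u : ℂ) * ((ff u : ℂ) - D0 u - Off X u)) *
        cexp (-(I * ((τ * Real.log u : ℝ) : ℂ)))) +
      ∫ u in Ioi (0 : ℝ), ((W a T u : ℂ) * Off X u) *
        cexp (-(I * ((τ * Real.log u : ℝ) : ℂ))) := by
    rw [← integral_add (mulph _ hEi) (mulph _ hOi)]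
    congr 1
    funext u
    push_cast
    ring
  rw [hsplit]
  refine (norm_add_le _ _).trans ?_
  have hb1 : ‖∫ u in Ioi (0 : ℝ), ((W a T u : ℂ) * ((ff u : ℂ) - D0 u - Off X u)) *
        cexp (-(I * ((τ * Real.log u : ℝ) : ℂ)))‖ ≤ K * T ^ (-(1 / 4 : ℝ)) *
        (Real.Gamma (a - 3) + Real.Gamma (a - 1 / 4) + Real.Gamma (a + P)) := by
    rw [← hGv]
    refine norm_integral_le_of_norm_le hGi ((ae_restrict_iff' measurableSet_Ioi).2
      (Eventually.of_forall fun u hu => ?_))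
    rw [norm_mul, hphase, mul_one]
    exact hE u hu
  have hb2 : ‖∫ u in Ioi (0 : ℝ), ((W a T u : ℂ) * Off X u) *
        cexp (-(I * ((τ * Real.log u : ℝ) : ℂ)))‖ ≤ C1 * T ^ (-δ) := hO T τ X hT hX1 hX2
  have m1 : T ^ (-(1 / 4 : ℝ)) ≤ T ^ (-(min δ (1 / 4))) :=
    Real.rpow_le_rpow_of_exponent_le hT1' (neg_le_neg (min_le_right _ _))
  have m2 : T ^ (-δ) ≤ T ^ (-(min δ (1 / 4))) :=
    Real.rpow_le_rpow_of_exponent_le hT1' (neg_le_neg (min_le_left _ _))
  calc _ ≤ K * T ^ (-(1 / 4 : ℝ)) *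
        (Real.Gamma (a - 3) + Real.Gamma (a - 1 / 4) + Real.Gamma (a + P)) + C1 * T ^ (-δ) :=
        add_le_add hb1 hb2
    _ ≤ K * T ^ (-(min δ (1 / 4))) *
        (Real.Gamma (a - 3) + Real.Gamma (a - 1 / 4) + Real.Gamma (a + P)) +
          C1 * T ^ (-(min δ (1 / 4))) := by
        gcongr
    _ = _ := by ring

end Pool.Agent.J4H13.GD
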