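import Pool.Agent.N879.GD.Stm

set_option autoImplicit false

/-!
Project GD (MP_112ba8_nt): job DIA, the diagonal part of the approximate functional equation.
-/

namespace Pool.Agent.J4H13.GD

open Complex Filter Topology MeasureTheory Set
open Pool.Agent.Y969.GP (ff V ht lam PS co PX)
open Pool.Agent.N879.GD

/-- the harmonic numbers -/
noncomputable def HH (m : ℕ) : ℝ := ∑ n ∈ Finset.Icc 1 m, ((n : ℝ))⁻¹

theorem HH_eq (m : ℕ) : HH m = (harmonic m : ℝ) := by
  unfold HH
  rw [harmonic_eq_sum_Icc]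
  push_cast
  rfl

theorem HH_lt (m : ℕ) : HH m < Real.log (m + 1) + Real.eulerMascheroniConstant := by
  have h := Real.eulerMascheroniSeq_lt_eulerMascheroniConstant m
  rw [HH_eq]
  unfold Real.eulerMascheroniSeq at h
  linarith

theorem HH_gt {m : ℕ} (hm : 1 ≤ m) : Real.log m + Real.eulerMascheroniConstant < HH m := by
  have h := Real.eulerMascheroniConstant_lt_eulerMascheroniSeq' m
  rw [HH_eq]
  unfold Real.eulerMascheroniSeq' at h
  rw [if_neg (by omega)] at h
  linarith

theorem euler_le : Real.eulerMascheroniConstant ≤ 1 := by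
  have h := Real.eulerMascheroniConstant_lt_two_thirds
  linarith

theorem euler_nonneg : 0 ≤ Real.eulerMascheroniConstant := by
  have h := Real.one_half_lt_eulerMascheroniConstant
  linarith

/-- the partial sums at a real number -/
theorem HH_real {m : ℕ} {Y : ℝ} (hY : 0 < Y) (h1 : (m : ℝ) < Y ∨ m = 0) (h2 : Y ≤ m + 1) :
    |HH m - Real.log Y - Real.eulerMascheroniConstant| ≤ 2 / Y := by
  have hγ1 := euler_le
  have hγ0 := euler_nonneg
  rcases Nat.eq_zero_or_pos m with rfl | hm
  · have h0 : HH 0 = 0 := by unfold HH; simp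
    simp only [Nat.cast_zero, zero_add] at h2
    rw [h0]
    have hl : Real.log Y ≤ 0 := Real.log_nonpos hY.le h2
    have hl2 : -Real.log Y ≤ Y⁻¹ - 1 := by
      rw [← Real.log_inv]
      exact Real.log_le_sub_one_of_pos (inv_pos.2 hY)
    have h3 : 1 ≤ Y⁻¹ := (one_le_inv₀ hY).2 h2
    rw [abs_le, div_eq_mul_inv]
    constructor <;> linarith
  · have hmY : (m : ℝ) < Y := by
      rcases h1 with h | h
      · exact h
      · omega
    have hm1 : (1 : ℝ) ≤ m := by exact_mod_cast hm
    have hm0 : (0 : ℝ) < m := by linarith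
    have hu := HH_lt m
    have hl := HH_gt (show 1 ≤ m from hm)
    have e1 : Real.log (m + 1) - Real.log Y ≤ 1 / Y := by
      rw [← Real.log_div (by positivity) hY.ne']
      refine le_trans (Real.log_le_sub_one_of_pos (by positivity)) ?_
      rw [div_sub_one hY.ne']
      exact div_le_div_of_nonneg_right (by linarith) hY.le
    have e2 : Real.log Y - Real.log m ≤ 2 / Y := by
      rw [← Real.log_div hY.ne' hm0.ne']
      refine le_trans (Real.log_le_sub_one_of_pos (by positivity)) ?_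
      rw [div_sub_one hm0.ne', div_le_div_iff₀ hm0 hY]
      nlinarith
    have e3 : 1 / Y ≤ 2 / Y := div_le_div_of_nonneg_right (by norm_num) hY.le
    rw [abs_le]
    constructor <;> linarith

/-- the sum over the `n ≤ N` which are smaller than `Y` -/
theorem HH_cut {N : ℕ} (hN : 1 ≤ N) {Y A : ℝ} (hY : 0 < Y) (hA : 0 < A) :
    |(∑ n ∈ (Finset.Icc 1 N).filter (fun n : ℕ => (n : ℝ) < Y), ((n : ℝ))⁻¹) - Real.log Y -
      Real.eulerMascheroniConstant| ≤ 2 / Y + 1 / N + A⁻¹ * (Y / N) ^ A := by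
  have hN1 : (1 : ℝ) ≤ N := by exact_mod_cast hN
  have hN0 : (0 : ℝ) < N := by linarith
  have hpos : 0 ≤ A⁻¹ * (Y / N) ^ A := by positivity
  have hpos2 : 0 ≤ 1 / (N : ℝ) := by positivity
  have hpos3 : 0 ≤ 2 / Y := by positivity
  by_cases hc : Y ≤ N
  · have hfil : (Finset.Icc 1 N).filter (fun n : ℕ => (n : ℝ) < Y) =
        Finset.Icc 1 (⌈Y⌉₊ - 1) := by
      ext n
      simp only [Finset.mem_filter, Finset.mem_Icc]
      have hcle : ⌈Y⌉₊ ≤ N := Nat.ceil_le.2 hc
      constructor
      · rintro ⟨⟨h1, h2⟩, h3⟩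
        refine ⟨h1, ?_⟩
        have := Nat.lt_ceil.2 h3
        omega
      · rintro ⟨h1, h2⟩
        refine ⟨⟨h1, by omega⟩, ?_⟩
        apply Nat.lt_ceil.1
        omega
    rw [hfil]
    change |HH (⌈Y⌉₊ - 1) - _ - _| ≤ _
    have hc1 : 1 ≤ ⌈Y⌉₊ := Nat.one_le_ceil_iff.2 hY
    refine le_trans (HH_real hY ?_ ?_) (by linarith)
    · left
      apply Nat.lt_ceil.1
      omega
    · have h3 := Nat.le_ceil Y
      have h4 : ((⌈Y⌉₊ - 1 : ℕ) : ℝ) + 1 = ⌈Y⌉₊ := by
        have : ⌈Y⌉₊ - 1 + 1 = ⌈Y⌉₊ := by omega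
        exact_mod_cast this
      linarith
  · push Not at hc
    have hfil : (Finset.Icc 1 N).filter (fun n : ℕ => (n : ℝ) < Y) = Finset.Icc 1 N := by
      apply Finset.filter_true_of_mem
      intro n hn
      have h1 : (n : ℝ) ≤ N := by exact_mod_cast (Finset.mem_Icc.1 hn).2
      linarith
    rw [hfil]
    change |HH N - _ - _| ≤ _
    have hu := HH_lt N
    have hl := HH_gt hN
    have e1 : Real.log (N + 1) - Real.log N ≤ 1 / N := by
      rw [← Real.log_div (by positivity) hN0.ne']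
      refine le_trans (Real.log_le_sub_one_of_pos (by positivity)) ?_
      rw [div_sub_one hN0.ne']
      exact le_of_eq (by ring)
    have e2 : Real.log Y - Real.log N ≤ A⁻¹ * (Y / N) ^ A := by
      rw [← Real.log_div hY.ne' hN0.ne']
      have h := Real.log_le_rpow_div (show 0 ≤ Y / N by positivity) hA
      refine h.trans (le_of_eq ?_)
      ring
    have e3 : 0 ≤ Real.log Y - Real.log N := by
      have := Real.log_le_log hN0 hc.le
      linarith
    rw [abs_le]
    constructor <;> linarith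

/-! ### The Gaussian integrals -/

/-- the Gaussian -/
noncomputable def ga (v : ℝ) : ℝ := Real.exp (-v ^ 2 / 4)

theorem ga_eq (v : ℝ) : ga v = Real.exp (-(1 / 4) * v ^ 2) := by
  unfold ga
  congr 1
  ring

theorem ga_int : Integrable ga := by
  have h := integrable_exp_neg_mul_sq (b := 1 / 4) (by norm_num)
  have h2 : ga = fun v : ℝ => Real.exp (-(1 / 4) * v ^ 2) := funext ga_eq
  rw [h2]
  exact h

theorem ga_exp_int (c : ℝ) : Integrable fun v : ℝ => ga v * Real.exp (c * v) := by
  have h := (integrable_exp_neg_mul_sq (b := 1 / 8) (by norm_num)).const_mul (Real.exp (2 * c ^ 2))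
  refine h.mono' (by unfold ga; fun_prop) (Eventually.of_forall fun v => ?_)
  rw [Real.norm_of_nonneg (by unfold ga; positivity), ga, ← Real.exp_add, ← Real.exp_add]
  apply Real.exp_le_exp.2
  nlinarith [sq_nonneg (v - 4 * c)]

theorem ga_lin_int : Integrable fun v : ℝ => ga v * v := by
  refine ((ga_exp_int 1).add (ga_exp_int (-1))).mono' (by unfold ga; fun_prop)
    (Eventually.of_forall fun v => ?_)
  have h0 : 0 ≤ ga v := by unfold ga; positivity
  rw [norm_mul, Real.norm_of_nonneg h0, Real.norm_eq_abs]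
  simp only [Pi.add_apply]
  rw [← mul_add]
  apply mul_le_mul_of_nonneg_left _ h0
  have h1 := Real.add_one_le_exp (1 * v)
  have h2 := Real.add_one_le_exp (-1 * v)
  have h3 := Real.exp_pos (1 * v)
  have h4 := Real.exp_pos (-1 * v)
  rw [abs_le]
  constructor <;> linarith

theorem ga_total : ∫ v, ga v = 2 * √Real.pi := by
  have h := integral_gaussian (1 / 4)
  have h2 : ga = fun v : ℝ => Real.exp (-(1 / 4) * v ^ 2) := funext ga_eq
  rw [h2, h]
  rw [show Real.pi / (1 / 4) = 2 ^ 2 * Real.pi by ring, Real.sqrt_mul (by norm_num),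
    Real.sqrt_sq (by norm_num)]

theorem ga_lin : ∫ v, ga v * v = 0 := by
  have h := integral_neg_eq_self (fun v : ℝ => ga v * v) volume
  have h2 : ∫ v, ga (-v) * (-v) = -∫ v, ga v * v := by
    rw [← integral_neg]
    congr 1
    funext v
    unfold ga
    rw [neg_sq]
    ring
  have h3 : ∫ v, ga (-v) * (-v) = ∫ v, ga v * v := h
  linarith

theorem main_int (a b : ℝ) : ∫ v, ga v * (a + b * v) = 2 * √Real.pi * a := by
  have h : (fun v : ℝ => ga v * (a + b * v)) = fun v => a * ga v + b * (ga v * v) := by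
    funext v
    ring
  rw [h, integral_add (ga_int.const_mul a) (ga_lin_int.const_mul b), integral_const_mul,
    integral_const_mul, ga_lin, ga_total]
  ring

theorem V_eq (x : ℝ) : V x = (2 * √Real.pi)⁻¹ * ∫ v, ga v * (if Real.log x < v then 1 else 0) := by
  unfold V
  congr 1
  rw [← integral_indicator measurableSet_Ioi]
  congr 1
  funext v
  unfold ga
  by_cases h : Real.log x < v
  · rw [indicator_of_mem (by exact h), if_pos h, mul_one]
  · rw [indicator_of_notMem (by exact h), if_neg h, mul_zero]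

theorem ga_ind_int (a : ℝ) : Integrable fun v : ℝ => ga v * (if a < v then 1 else 0) := by
  have h : (fun v : ℝ => ga v * (if a < v then (1 : ℝ) else 0)) = (Ioi a).indicator ga := by
    funext v
    by_cases h : a < v
    · rw [indicator_of_mem (by exact h), if_pos h, mul_one]
    · rw [indicator_of_notMem (by exact h), if_neg h, mul_zero]
  rw [h]
  exact ga_int.indicator measurableSet_Ioi

/-- the diagonal sum -/
theorem diag_sum (X : ℕ) (u : ℝ) :
    ∑ p ∈ (PS X).filter (fun p => p.1 = p.2), co p u =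
      ∑ n ∈ Finset.Icc 1 (Nat.sqrt X), 2 * ((n : ℝ))⁻¹ * V (2 * Real.pi * (n : ℝ) ^ 2 / u) := by
  symm
  refine Finset.sum_bij (fun n _ => (n, n)) ?_ ?_ ?_ ?_
  · intro n hn
    rw [Finset.mem_Icc] at hn
    have h1 : n * n ≤ X := Nat.le_sqrt.1 hn.2
    have h2 : n ≤ X := le_trans hn.2 (Nat.sqrt_le_self X)
    simp only [PS, Finset.mem_filter, Finset.mem_product, Finset.mem_Icc]
    exact ⟨⟨⟨⟨hn.1, h2⟩, hn.1, h2⟩, h1⟩, trivial⟩
  · intro a _ b _ h
    exact (Prod.mk.inj h).1
  · rintro ⟨a, b⟩ hab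
    simp only [PS, Finset.mem_filter, Finset.mem_product, Finset.mem_Icc] at hab
    obtain ⟨⟨⟨⟨h1, h2⟩, -, -⟩, h3⟩, rfl⟩ := hab
    exact ⟨a, Finset.mem_Icc.2 ⟨h1, Nat.le_sqrt.2 h3⟩, rfl⟩
  · intro n hn
    unfold co ht
    have h1 : √((n : ℝ) * n) = n := Real.sqrt_mul_self (Nat.cast_nonneg n)
    simp only [h1]
    rw [sq]

theorem t_DIA : S_DIA := by
  intro ε hε
  refine ⟨(√Real.pi)⁻¹ * (∫ v, ga v * ((8 + ε) * (Real.exp (-(1 / 2) * v) + 1 +
    Real.exp (1 / (2 * ε) * v)))) + 1, ?_, ?_⟩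
  · have h : 0 ≤ ∫ v, ga v * ((8 + ε) * (Real.exp (-(1 / 2) * v) + 1 +
        Real.exp (1 / (2 * ε) * v))) := by
      apply integral_nonneg
      intro v
      unfold ga
      positivity
    have h2 : 0 ≤ (√Real.pi)⁻¹ := by positivity
    have h3 := mul_nonneg h2 h
    linarith
  intro u X hu hX
  have hu0 : 0 < u := by linarith
  have hpi := Real.pi_pos
  have hsp : 0 < √Real.pi := Real.sqrt_pos.2 hpi
  obtain ⟨N, hNdef⟩ : ∃ N, N = Nat.sqrt X := ⟨_, rfl⟩
  obtain ⟨y, hy⟩ : ∃ y : ℝ, y = √(u / (2 * Real.pi)) := ⟨_, rfl⟩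
  have hy0 : 0 < y := by rw [hy]; positivity
  have hy2 : y ^ 2 = u / (2 * Real.pi) := by rw [hy]; exact Real.sq_sqrt (by positivity)
  have hX1 : 1 ≤ X := by
    have h1 : (1 : ℝ) ≤ u ^ (1 + ε) := Real.one_le_rpow hu (by linarith)
    exact_mod_cast h1.trans hX
  have hN1 : 1 ≤ N := by
    rw [hNdef]
    exact Nat.le_sqrt.2 (by omega)
  have hN1' : (1 : ℝ) ≤ N := by exact_mod_cast hN1
  have hN0 : (0 : ℝ) < N := by linarith
  have hXN : (X : ℝ) < (2 * N) ^ 2 := by
    have h1 : X < (N + 1) * (N + 1) := by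
      rw [hNdef]
      exact Nat.lt_succ_sqrt X
    have h2 : (X : ℝ) < (N + 1) * (N + 1) := by exact_mod_cast h1
    nlinarith
  -- the powers of `u`
  obtain ⟨w, hw⟩ : ∃ w : ℝ, w = u ^ (-(1 / 2 : ℝ)) := ⟨_, rfl⟩
  have hw0 : 0 < w := by rw [hw]; positivity
  have hwsq : w ^ 2 * u = 1 := by
    rw [hw, ← Real.rpow_natCast, ← Real.rpow_mul hu0.le]
    norm_num
    rw [Real.rpow_neg_one, inv_mul_cancel₀ hu0.ne']
  have hpi4 : Real.pi < 4 := Real.pi_lt_four
  have hy1 : 2 / y ≤ 8 * w := by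
    rw [div_le_iff₀ hy0]
    have h1 : (8 * w * y) ^ 2 ≥ 2 ^ 2 := by
      have h2 : (8 * w * y) ^ 2 = 32 / Real.pi := by
        rw [mul_pow, mul_pow, hy2]
        have h3 : (8 : ℝ) ^ 2 * w ^ 2 * (u / (2 * Real.pi)) = 8 ^ 2 * (w ^ 2 * u) / (2 * Real.pi) := by
          ring
        rw [h3, hwsq]
        field_simp
        norm_num
      rw [h2, ge_iff_le, le_div_iff₀ hpi]
      linarith
    exact (abs_le_of_sq_le_sq' h1 (by positivity)).2
  have hNw : 1 / (N : ℝ) ≤ 8 * w := by
    rw [div_le_iff₀ hN0]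
    have h1 : u ≤ X := by
      refine le_trans ?_ hX
      calc u = u ^ (1 : ℝ) := (Real.rpow_one u).symm
        _ ≤ u ^ (1 + ε) := Real.rpow_le_rpow_of_exponent_le hu (by linarith)
    have h2 : (1 : ℝ) ^ 2 ≤ (8 * w * N) ^ 2 := by
      have h3 : u < (2 * N) ^ 2 := lt_of_le_of_lt h1 hXN
      have h4 : w ^ 2 * u ≤ w ^ 2 * (2 * N) ^ 2 := mul_le_mul_of_nonneg_left h3.le (by positivity)
      rw [hwsq] at h4
      nlinarith [sq_nonneg (w * N)]
    exact (abs_le_of_sq_le_sq' h2 (by positivity)).2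
  have hyN : (y / N) ^ (1 / ε) ≤ w := by
    have h1 : y / N ≤ u ^ (-(ε / 2)) := by
      rw [div_le_iff₀ hN0]
      have h2 : y ^ 2 ≤ (u ^ (-(ε / 2)) * N) ^ 2 := by
        rw [hy2, mul_pow, ← Real.rpow_natCast, ← Real.rpow_mul hu0.le]
        have h3 : u ^ (1 + ε) < (2 * N) ^ 2 := lt_of_le_of_lt hX hXN
        have h4 : u ^ (-(ε / 2) * ((2 : ℕ) : ℝ)) = u ^ (-ε) := by
          congr 1
          push_cast
          ring
        rw [h4, div_le_iff₀ (by positivity)]
        have h5 : u = u ^ (-ε) * u ^ (1 + ε) := by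
          rw [← Real.rpow_add hu0]
          norm_num
        have h6 : u ^ (-ε) * u ^ (1 + ε) ≤ u ^ (-ε) * (2 * N) ^ 2 :=
          mul_le_mul_of_nonneg_left h3.le (by positivity)
        have h7 : 0 ≤ u ^ (-ε) * (N : ℝ) ^ 2 := by positivity
        have h8 : (3 : ℝ) < Real.pi := Real.pi_gt_three
        nlinarith
      exact (abs_le_of_sq_le_sq' h2 (by positivity)).2
    calc (y / N) ^ (1 / ε) ≤ (u ^ (-(ε / 2))) ^ (1 / ε) :=
          Real.rpow_le_rpow (by positivity) h1 (by positivity)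
      _ = w := by
          rw [hw, ← Real.rpow_mul hu0.le]
          congr 1
          field_simp
  -- the integral formula
  have hS : ∑ p ∈ (PS X).filter (fun p => p.1 = p.2), co p u =
      (√Real.pi)⁻¹ * ∫ v, ga v * ∑ n ∈ (Finset.Icc 1 N).filter
        (fun n : ℕ => (n : ℝ) < y * Real.exp (v / 2)), ((n : ℝ))⁻¹ := by
    rw [diag_sum, ← hNdef]
    have h1 : (fun v : ℝ => ga v * ∑ n ∈ (Finset.Icc 1 N).filter
        (fun n : ℕ => (n : ℝ) < y * Real.exp (v / 2)), ((n : ℝ))⁻¹) = fun v =>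
        ∑ n ∈ Finset.Icc 1 N, ((n : ℝ))⁻¹ *
          (ga v * (if Real.log (2 * Real.pi * (n : ℝ) ^ 2 / u) < v then 1 else 0)) := by
      funext v
      rw [Finset.sum_filter, Finset.mul_sum]
      refine Finset.sum_congr rfl fun n hn => ?_
      have hn1 : (1 : ℝ) ≤ n := by exact_mod_cast (Finset.mem_Icc.1 hn).1
      have hiff : (n : ℝ) < y * Real.exp (v / 2) ↔ Real.log (2 * Real.pi * (n : ℝ) ^ 2 / u) < v := by
        rw [Real.log_lt_iff_lt_exp (by positivity)]
        have h2 : (y * Real.exp (v / 2)) ^ 2 = u / (2 * Real.pi) * Real.exp v := by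
          rw [mul_pow, hy2, ← Real.exp_nat_mul]
          congr 2
          push_cast
          ring
        have h3 : (n : ℝ) < y * Real.exp (v / 2) ↔ (n : ℝ) ^ 2 < (y * Real.exp (v / 2)) ^ 2 :=
          (pow_lt_pow_iff_left₀ (by positivity) (by positivity) (by norm_num)).symm
        rw [h3, h2, div_lt_iff₀ hu0, div_mul_eq_mul_div, lt_div_iff₀ (by positivity)]
        constructor <;> intro h <;> linarith
      by_cases hc : (n : ℝ) < y * Real.exp (v / 2)
      · rw [if_pos hc, if_pos (hiff.1 hc)]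
        ring
      · rw [if_neg hc, if_neg (fun h => hc (hiff.2 h))]
        ring
    rw [h1, integral_finsetSum _ fun n _ => (ga_ind_int _).const_mul _, Finset.mul_sum]
    refine Finset.sum_congr rfl fun n _ => ?_
    rw [V_eq, integral_const_mul]
    field_simp
  have hD : D0 u = (√Real.pi)⁻¹ * ∫ v, ga v * (Real.log (y * Real.exp (v / 2)) +
      Real.eulerMascheroniConstant) := by
    have h1 : (fun v : ℝ => ga v * (Real.log (y * Real.exp (v / 2)) +
        Real.eulerMascheroniConstant)) = fun v => ga v * ((Real.log y +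
          Real.eulerMascheroniConstant) + 1 / 2 * v) := by
      funext v
      rw [Real.log_mul hy0.ne' (Real.exp_pos _).ne', Real.log_exp]
      ring
    rw [h1, main_int]
    have h2 : Real.log (u / (2 * Real.pi)) = 2 * Real.log y := by
      rw [← hy2, Real.log_pow]
      norm_num
    unfold D0
    rw [h2]
    field_simp
  have hintD : Integrable fun v : ℝ => ga v * (Real.log (y * Real.exp (v / 2)) +
      Real.eulerMascheroniConstant) := by
    have h1 : (fun v : ℝ => ga v * (Real.log (y * Real.exp (v / 2)) +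
        Real.eulerMascheroniConstant)) = fun v => (Real.log y +
          Real.eulerMascheroniConstant) * ga v + 1 / 2 * (ga v * v) := by
      funext v
      rw [Real.log_mul hy0.ne' (Real.exp_pos _).ne', Real.log_exp]
      ring
    rw [h1]
    exact (ga_int.const_mul _).add (ga_lin_int.const_mul _)
  have hintS : Integrable fun v : ℝ => ga v * ∑ n ∈ (Finset.Icc 1 N).filter
        (fun n : ℕ => (n : ℝ) < y * Real.exp (v / 2)), ((n : ℝ))⁻¹ := by
    have h1 : (fun v : ℝ => ga v * ∑ n ∈ (Finset.Icc 1 N).filter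
        (fun n : ℕ => (n : ℝ) < y * Real.exp (v / 2)), ((n : ℝ))⁻¹) = fun v =>
        ∑ n ∈ Finset.Icc 1 N, ((n : ℝ))⁻¹ *
          (ga v * (if 2 * Real.log (n / y) < v then 1 else 0)) := by
      funext v
      rw [Finset.sum_filter, Finset.mul_sum]
      refine Finset.sum_congr rfl fun n hn => ?_
      have hn1 : (1 : ℝ) ≤ n := by exact_mod_cast (Finset.mem_Icc.1 hn).1
      have hiff : (n : ℝ) < y * Real.exp (v / 2) ↔ 2 * Real.log (n / y) < v := by
        have h3 : 2 * Real.log (n / y) < v ↔ Real.log (n / y) < v / 2 := by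
          constructor <;> intro h <;> linarith
        rw [h3, Real.log_lt_iff_lt_exp (by positivity), div_lt_iff₀ hy0, mul_comm y]
      by_cases hc : (n : ℝ) < y * Real.exp (v / 2)
      · rw [if_pos hc, if_pos (hiff.1 hc)]
        ring
      · rw [if_neg hc, if_neg (fun h => hc (hiff.2 h))]
        ring
    rw [h1]
    exact integrable_finsetSum _ fun n _ => (ga_ind_int _).const_mul _
  rw [hS, hD, ← mul_sub, ← integral_sub hintS hintD, abs_mul, abs_of_pos (inv_pos.2 hsp)]
  have hbd : |∫ v, (ga v * ∑ n ∈ (Finset.Icc 1 N).filter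
        (fun n : ℕ => (n : ℝ) < y * Real.exp (v / 2)), ((n : ℝ))⁻¹ -
      ga v * (Real.log (y * Real.exp (v / 2)) + Real.eulerMascheroniConstant))| ≤
      w * ∫ v, ga v * ((8 + ε) * (Real.exp (-(1 / 2) * v) + 1 +
        Real.exp (1 / (2 * ε) * v))) := by
    rw [← integral_const_mul, ← Real.norm_eq_abs]
    refine norm_integral_le_of_norm_le ?_ (Eventually.of_forall fun v => ?_)
    · have h1 : (fun v : ℝ => w * (ga v * ((8 + ε) * (Real.exp (-(1 / 2) * v) + 1 +
          Real.exp (1 / (2 * ε) * v))))) = fun v => (w * (8 + ε)) *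
            (ga v * Real.exp (-(1 / 2) * v)) + (w * (8 + ε)) * ga v + (w * (8 + ε)) *
            (ga v * Real.exp (1 / (2 * ε) * v)) := by
        funext v
        ring
      rw [h1]
      exact (((ga_exp_int _).const_mul _).add (ga_int.const_mul _)).add
        ((ga_exp_int _).const_mul _)
    · have hg0 : 0 ≤ ga v := by unfold ga; positivity
      rw [← mul_sub, norm_mul, Real.norm_of_nonneg hg0, mul_left_comm w (ga v)]
      apply mul_le_mul_of_nonneg_left _ hg0
      have hYpos : 0 < y * Real.exp (v / 2) := by positivity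
      have h1 := HH_cut hN1 hYpos (show 0 < 1 / ε by positivity)
      rw [Real.norm_eq_abs, ← sub_sub]
      refine le_trans h1 ?_
      have h2 : 2 / (y * Real.exp (v / 2)) ≤ 8 * w * Real.exp (-(1 / 2) * v) := by
        have h3 : 2 / (y * Real.exp (v / 2)) = 2 / y * Real.exp (-(1 / 2) * v) := by
          rw [show -(1 / 2) * v = -(v / 2) by ring, Real.exp_neg]
          field_simp
        rw [h3]
        exact mul_le_mul_of_nonneg_right hy1 (Real.exp_pos _).le
      have h4 : (1 / ε)⁻¹ * (y * Real.exp (v / 2) / N) ^ (1 / ε) ≤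
          ε * w * Real.exp (1 / (2 * ε) * v) := by
        have h5 : y * Real.exp (v / 2) / N = y / N * Real.exp (v / 2) := by ring
        have h6 : (Real.exp (v / 2)) ^ (1 / ε) = Real.exp (1 / (2 * ε) * v) := by
          rw [← Real.exp_mul]
          congr 1
          field_simp
        rw [h5, Real.mul_rpow (by positivity) (by positivity), h6, one_div, inv_inv, mul_assoc]
        rw [one_div] at hyN
        apply mul_le_mul_of_nonneg_left _ hε.le
        exact mul_le_mul_of_nonneg_right hyN (Real.exp_pos _).le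
      have p1 : 0 < Real.exp (-(1 / 2) * v) := Real.exp_pos _
      have p2 : 0 < Real.exp (1 / (2 * ε) * v) := Real.exp_pos _
      have q1 : 0 ≤ ε * w * Real.exp (-(1 / 2) * v) := by positivity
      have q2 : 0 ≤ ε * w := by positivity
      have q3 : 0 ≤ 8 * w * Real.exp (1 / (2 * ε) * v) := by positivity
      nlinarith
  calc (√Real.pi)⁻¹ * |∫ v, (ga v * ∑ n ∈ (Finset.Icc 1 N).filter
        (fun n : ℕ => (n : ℝ) < y * Real.exp (v / 2)), ((n : ℝ))⁻¹ -
      ga v * (Real.log (y * Real.exp (v / 2)) + Real.eulerMascheroniConstant))|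
      ≤ (√Real.pi)⁻¹ * (w * ∫ v, ga v * ((8 + ε) * (Real.exp (-(1 / 2) * v) + 1 +
        Real.exp (1 / (2 * ε) * v)))) :=
        mul_le_mul_of_nonneg_left hbd (inv_pos.2 hsp).le
    _ ≤ _ := by
        rw [← hw]
        nlinarith

end Pool.Agent.J4H13.GD
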